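import Pool.Agent.H15.RC.FR2

/-!
# Reciprocity for subfields of cyclotomic extensions
-/

set_option autoImplicit false

open NumberField

namespace Pool.Agent.H15.RC

open Pool.Agent.H28.RC

/-- a character of the image of `c` comes from a Dirichlet character -/
theorem exists_dirichlet {Γ : Type} [Group Γ] (q : ℕ) [NeZero q] (c : Γ →* (ZMod q)ˣ)
    (lam : Γ →* ℂˣ) (h : c.ker ≤ lam.ker) :
    ∃ θ : DirichletCharacter ℂ q, ∀ g, θ (c g : ZMod q) = ((lam g : ℂˣ) : ℂ) := by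
  have hsurj : Function.Surjective c.rangeRestrict := c.rangeRestrict_surjective
  have hker : c.rangeRestrict.ker ≤ lam.ker := by
    rw [MonoidHom.ker_rangeRestrict]
    exact h
  set lam' : c.range →* ℂˣ := c.rangeRestrict.liftOfRightInverse _
    (Function.rightInverse_surjInv hsurj) ⟨lam, hker⟩ with hlam'
  have h1 : ∀ g, lam' (c.rangeRestrict g) = lam g := fun g =>
    c.rangeRestrict.liftOfRightInverse_comp_apply _ (Function.rightInverse_surjInv hsurj)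
      ⟨lam, hker⟩ g
  have : NeZero (Monoid.exponent (ZMod q)ˣ) :=
    ⟨Monoid.exponent_ne_zero_of_finite⟩
  obtain ⟨Θ, hΘ⟩ := MonoidHom.domRestrict_surjective ℂ c.range lam'
  refine ⟨MulChar.ofUnitHom Θ, fun g => ?_⟩
  rw [MulChar.ofUnitHom_coe]
  have h2 : Θ (c g) = lam' (c.rangeRestrict g) := by
    rw [← hΘ]
    rfl
  rw [h2, h1]

/-- the number of the characters trivial on `N` -/
theorem card_chars {Γ A : Type} [Group Γ] [Finite Γ] [CommGroup A] (c : Γ →* A)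
    (N : Subgroup Γ) [N.Normal] (h : c.ker ≤ N) : Nat.card ((Γ ⧸ N) →* ℂˣ) = N.index := by
  let _ : CommGroup (Γ ⧸ N) :=
    { QuotientGroup.Quotient.group N with
      mul_comm := by
        intro a b
        obtain ⟨x, rfl⟩ := QuotientGroup.mk_surjective a
        obtain ⟨y, rfl⟩ := QuotientGroup.mk_surjective b
        rw [← QuotientGroup.mk_mul, ← QuotientGroup.mk_mul, QuotientGroup.eq]
        apply h
        rw [MonoidHom.mem_ker, map_mul, map_inv, map_mul, map_mul, mul_comm (c x),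
          inv_mul_cancel] }
  have : NeZero (Monoid.exponent (Γ ⧸ N)) :=
    ⟨Monoid.exponent_ne_zero_of_finite⟩
  exact CommGroup.card_monoidHom_of_hasEnoughRootsOfUnity (Γ ⧸ N) ℂ

theorem cyc_frob {F Ω : Type} [Field F] [NumberField F] [Field Ω] [NumberField Ω] [Algebra F Ω]
    [IsGalois F Ω] (q : ℕ) [NeZero q] (ζ : Ω) (hζ : IsPrimitiveRoot ζ q) (P : Ideal (𝓞 F)) (g : Ω ≃ₐ[F] Ω)
    (hg : Fro P g) (hqP : (q : 𝓞 F) ∉ P) :
    ((hζ.autToPow F g : (ZMod q)ˣ) : ZMod q) = ((Ideal.absNorm P : ℕ) : ZMod q) := by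
  obtain ⟨Q, hQ, hQP, hQg⟩ := hg
  have hA : (MulSemiringAction.toAlgHom (𝓞 F) (𝓞 Ω) g).IsArithFrobAt Q := by
    intro x
    have h1 := hQg x
    rw [← hQP, Ideal.absNorm_apply, Submodule.cardQuot_apply] at h1
    exact h1
  have hqQ : ((q : ℕ) : 𝓞 Ω) ∉ Q := by
    intro h
    apply hqP
    rw [← hQP, Ideal.mem_comap, map_natCast]
    exact h
  have h1 := hA.apply_of_pow_eq_one hζ.toInteger_isPrimitiveRoot.pow_eq_one hqQ
  have h2 : g ζ = ζ ^ Ideal.absNorm P := by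
    have h3 := congrArg (fun z : 𝓞 Ω => (z : Ω)) h1
    have h4 : Nat.card (𝓞 F ⧸ Q.under (𝓞 F)) = Ideal.absNorm P := by
      rw [← hQP, Ideal.absNorm_apply, Submodule.cardQuot_apply]
    rw [h4] at h3
    exact h3
  rw [← hζ.autToPow_spec F g] at h2
  have h6 : (((hζ.autToPow F g : (ZMod q)ˣ) : ZMod q).val : ZMod q) =
      ((Ideal.absNorm P : ℕ) : ZMod q) := by
    rw [ZMod.natCast_eq_natCast_iff']
    have h7 := (hζ.isOfFinOrder (NeZero.ne _)).pow_inj_mod.1 h2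
    rwa [← hζ.eq_orderOf] at h7
  rwa [ZMod.natCast_zmod_val] at h6

theorem ker_autToPow {F Ω : Type} [Field F] [NumberField F] [Field Ω] [NumberField Ω]
    [Algebra F Ω] (q : ℕ) [NeZero q] (ζ : Ω) (hζ : IsPrimitiveRoot ζ q) (g : Ω ≃ₐ[F] Ω)
    (hg : hζ.autToPow F g = 1) : g ζ = ζ := by
  rw [← hζ.autToPow_spec F g, hg, Units.val_one, ZMod.val_one_eq_one_mod]
  have h1 : ζ ^ (1 % q) = ζ ^ 1 := by
    conv_rhs => rw [pow_eq_pow_mod 1 hζ.pow_eq_one]
  rw [h1, pow_one]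

theorem pf_CYC : T_FRE → T_SUR → T_SEC → T_CCH → T_CYC := by
  intro hFRE hSUR hSEC hCCH F Ω _ _ _ _ _ _ m N q _ ζ hζ hm0 hmq hU hN hker
  classical
  intro ψ hψ
  set c := hζ.autToPow F with hc
  have hcN : c.ker ≤ N := by
    intro g hg
    exact hker g (ker_autToPow q ζ hζ g (MonoidHom.mem_ker.1 hg))
  -- the characters
  have hlam : ∀ Λ : ((Ω ≃ₐ[F] Ω) ⧸ N) →* ℂˣ, c.ker ≤ (Λ.comp (QuotientGroup.mk' N)).ker := by
    intro Λ g hg
    rw [MonoidHom.mem_ker, MonoidHom.comp_apply, QuotientGroup.mk'_apply,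
      (QuotientGroup.eq_one_iff g).2 (hcN hg), map_one]
  choose θ hθ using fun Λ : ((Ω ≃ₐ[F] Ω) ⧸ N) →* ℂˣ =>
    exists_dirichlet q c (Λ.comp (QuotientGroup.mk' N)) (hlam Λ)
  set Ψ : (((Ω ≃ₐ[F] Ω) ⧸ N) →* ℂˣ) → Ideal (𝓞 F) → ℂ := fun Λ I =>
    if I ≠ ⊥ ∧ I ⊔ m = ⊤ then θ Λ ((Ideal.absNorm I : ℕ) : ZMod q) else 0 with hΨ
  have hval : ∀ (Λ : ((Ω ≃ₐ[F] Ω) ⧸ N) →* ℂˣ) (P : Ideal (𝓞 F)), P ⊔ m = ⊤ →
      ∀ g : Ω ≃ₐ[F] Ω, Fro P g → Ψ Λ P = ((Λ.comp (QuotientGroup.mk' N) g : ℂˣ) : ℂ) := by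
    intro Λ P hPm g hg
    obtain ⟨hP, hP0⟩ := (hFRE F Ω).2.1 P g hg
    have hqP : (q : 𝓞 F) ∉ P := by
      intro h
      have h1 : m ≤ P := hmq.trans ((Ideal.span_singleton_le_iff_mem _).2 h)
      rw [sup_eq_left.2 h1] at hPm
      exact hP.ne_top hPm
    rw [hΨ]
    simp only
    rw [if_pos ⟨hP0, hPm⟩, ← hθ Λ g, hc, cyc_frob q ζ hζ P g hg hqP]
  have hPsi : ∀ Λ, Psi m N (Ψ Λ) := by
    intro Λ
    refine ⟨hCCH F m q (θ Λ) hm0 hmq, ?_⟩
    intro P hPm g hg f hgf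
    rw [hval Λ P hPm g hg, ← Units.val_pow_eq_pow_val, ← map_pow, MonoidHom.comp_apply,
      QuotientGroup.mk'_apply, (QuotientGroup.eq_one_iff _).2 hgf, map_one, Units.val_one]
  have hinj : Function.Injective Ψ := by
    intro Λ Λ' h
    have h1 := hSUR F Ω m ((Λ.comp (QuotientGroup.mk' N)) / (Λ'.comp (QuotientGroup.mk' N)))
      hm0 hU (by
        intro P hPm g hg
        have h2 := hval Λ P hPm g hg
        have h3 := hval Λ' P hPm g hg
        rw [h, h3] at h2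
        rw [MonoidHom.div_apply, div_eq_one]
        exact (Units.ext h2).symm)
    refine MonoidHom.ext fun x => ?_
    obtain ⟨g, rfl⟩ := QuotientGroup.mk_surjective x
    have h4 := DFunLike.congr_fun h1 g
    rw [MonoidHom.div_apply, MonoidHom.one_apply, div_eq_one] at h4
    exact h4
  have hcard : Nat.card (((Ω ≃ₐ[F] Ω) ⧸ N) →* ℂˣ) = N.index := card_chars c N hcN
  have hfin : Finite (((Ω ≃ₐ[F] Ω) ⧸ N) →* ℂˣ) := by
    apply Nat.finite_of_card_ne_zero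
    rw [hcard]
    exact Subgroup.index_ne_zero_of_finite
  have := Fintype.ofFinite (((Ω ≃ₐ[F] Ω) ⧸ N) →* ℂˣ)
  have hmem : ψ ∈ Finset.univ.image Ψ := by
    by_contra hne
    have h1 := hSEC F Ω m N hN hU (insert ψ (Finset.univ.image Ψ)) (by
      intro ψ' h
      rcases Finset.mem_insert.1 h with rfl | h
      · exact hψ
      · obtain ⟨Λ, -, rfl⟩ := Finset.mem_image.1 h
        exact hPsi Λ)
    rw [Finset.card_insert_of_notMem hne, Finset.card_image_of_injective _ hinj,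
      Finset.card_univ, ← Nat.card_eq_fintype_card, hcard] at h1
    omega
  obtain ⟨Λ, -, rfl⟩ := Finset.mem_image.1 hmem
  refine ⟨Λ.comp (QuotientGroup.mk' N), fun g hg => ?_, hval Λ⟩
  rw [MonoidHom.comp_apply, QuotientGroup.mk'_apply, (QuotientGroup.eq_one_iff g).2 hg, map_one]

end Pool.Agent.H15.RC
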