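import Pool.Agent.H15.RC.URT

/-!
# Frobenius elements in a tower, from below
-/

set_option autoImplicit false

open NumberField

namespace Pool.Agent.H15.RC

open Pool.Agent.H28.RC

/-- existence of a Frobenius element at a given prime -/
theorem exists_frob {L Ω : Type} [Field L] [NumberField L] [Field Ω] [NumberField Ω]
    [Algebra L Ω] [IsGalois L Ω] (Q : Ideal (𝓞 Ω)) (hQ : Q.IsPrime) (h0 : Q ≠ ⊥) :
    ∃ h : Ω ≃ₐ[L] Ω, ∀ x : 𝓞 Ω, h • x - x ^ Ideal.absNorm (Q.under (𝓞 L)) ∈ Q := by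
  have hfin : Finite (𝓞 Ω ⧸ Q) := Ideal.finiteQuotientOfFreeOfNeBot Q h0
  obtain ⟨h, hh⟩ := IsArithFrobAt.exists_of_isInvariant (𝓞 L) (Ω ≃ₐ[L] Ω) Q
  refine ⟨h, fun x => ?_⟩
  have h1 := hh x
  rw [Ideal.absNorm_apply, Submodule.cardQuot_apply]
  exact h1

/-- iterates of a Frobenius element -/
theorem frob_pow {F Ω : Type} [Field F] [NumberField F] [Field Ω] [NumberField Ω]
    [Algebra F Ω] (Q : Ideal (𝓞 Ω)) (n : ℕ) (hn : n ≠ 0) (g : Ω ≃ₐ[F] Ω)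
    (hg : ∀ x : 𝓞 Ω, g • x - x ^ n ∈ Q) (k : ℕ) (x : 𝓞 Ω) :
    (g ^ k) • x - x ^ (n ^ k) ∈ Q := by
  have hpres : ∀ y ∈ Q, g • y ∈ Q := by
    intro y hy
    have h1 := hg y
    have h2 : y ^ n ∈ Q := Ideal.pow_mem_of_mem Q hy n (Nat.pos_of_ne_zero hn)
    have h3 := Q.add_mem h1 h2
    rwa [sub_add_cancel] at h3
  induction k generalizing x with
  | zero => simp
  | succ k ih =>
    have h1 := hpres _ (ih x)
    rw [smul_sub, smul_pow', ← mul_smul, ← pow_succ'] at h1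
    have h2 : (g • x) ^ n ^ k - (x ^ n) ^ n ^ k ∈ Q :=
      Ideal.mem_of_dvd Q (sub_dvd_pow_sub_pow _ _ _) (hg x)
    have h3 := Q.add_mem h1 h2
    rw [sub_add_sub_cancel, ← pow_mul, ← pow_succ'] at h3
    exact h3

/-- two elements which act in the same way modulo `Q` -/
theorem eq_of_sub_mem {F Ω : Type} [Field F] [NumberField F] [Field Ω] [NumberField Ω]
    [Algebra F Ω] (Q : Ideal (𝓞 Ω)) (n : ℕ) (g h : Ω ≃ₐ[F] Ω)
    (hU : ∀ g : Ω ≃ₐ[F] Ω, (∀ x : 𝓞 Ω, g • x - x ∈ Q) → g = 1)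
    (hg : ∀ x : 𝓞 Ω, g • x - x ^ n ∈ Q) (hh : ∀ x : 𝓞 Ω, h • x - x ^ n ∈ Q) : g = h := by
  have h1 : g * h⁻¹ = 1 := by
    refine hU _ fun x => ?_
    have h2 := hg (h⁻¹ • x)
    have h3 := hh (h⁻¹ • x)
    have h4 := Q.sub_mem h2 h3
    rw [sub_sub_sub_cancel_right, ← mul_smul, smul_inv_smul] at h4
    exact h4
  exact mul_inv_eq_one.1 h1

theorem dvd_of_frob {L : Type} [Field L] [NumberField L] (P : Ideal (𝓞 L)) (hP : P.IsPrime)
    (h0 : P ≠ ⊥) (n f d : ℕ) (hn : 2 ≤ n) (hf : Ideal.absNorm P = n ^ f)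
    (hx : ∀ x : 𝓞 L, x ^ (n ^ d) - x ∈ P) : f ∣ d := by
  have hPm : P.IsMaximal := hP.isMaximal h0
  let _ : Field (𝓞 L ⧸ P) := Ideal.Quotient.field P
  have hfin : Finite (𝓞 L ⧸ P) := Ideal.finiteQuotientOfFreeOfNeBot P h0
  obtain ⟨u, hu⟩ := IsCyclic.exists_generator (α := (𝓞 L ⧸ P)ˣ)
  have hcard : orderOf u = n ^ f - 1 := by
    rw [orderOf_eq_card_of_forall_mem_zpowers hu, Nat.card_units, ← hf, Ideal.absNorm_apply,
      Submodule.cardQuot_apply]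
  have h1 : u ^ (n ^ d - 1) = 1 := by
    have h2 : u ^ (n ^ d) = u := by
      obtain ⟨x, hxu⟩ := Ideal.Quotient.mk_surjective (I := P) (u : 𝓞 L ⧸ P)
      apply Units.ext
      rw [Units.val_pow_eq_pow_val, ← hxu, ← map_pow, Ideal.Quotient.eq]
      exact hx x
    have h3 : n ^ d = (n ^ d - 1) + 1 := by
      have := Nat.one_le_pow d n (by omega)
      omega
    rw [h3, pow_succ] at h2
    exact mul_eq_right.1 h2
  have h4 : n ^ f - 1 ∣ n ^ d - 1 := hcard ▸ orderOf_dvd_of_pow_eq_one h1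
  have h5 := Nat.pow_sub_one_gcd_pow_sub_one n f d
  rw [Nat.gcd_eq_left h4] at h5
  have h6 := Nat.one_le_pow f n (by omega)
  have h7 := Nat.one_le_pow (Nat.gcd f d) n (by omega)
  have h8 : n ^ f = n ^ Nat.gcd f d := by omega
  have h9 := Nat.pow_right_injective hn h8
  exact Nat.gcd_eq_left_iff_dvd.1 h9.symm

theorem pf_FR2 : T_FRE → T_FR1 → T_FR2 := by
  intro hFRE hFR1 F L Ω _ _ _ _ _ _ _ _ _ _ _ m hU P g hg hPm d h' hh'
  obtain ⟨hP, hP0⟩ := (hFRE F Ω).2.1 P g hg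
  obtain ⟨Q, hQ, hQP, hQg⟩ := hg
  have hQ0 : Q ≠ ⊥ := by
    rintro rfl
    apply hP0
    rw [← hQP]
    exact Ideal.under_bot _ _
  have hgal : IsGalois L Ω := IsGalois.tower_top_of_isGalois F L Ω
  obtain ⟨h1, h2⟩ := under_prime (F := L) Q hQ hQ0
  have h3 : (Q.under (𝓞 L)).under (𝓞 F) = P := by rw [Ideal.under_under, hQP]
  obtain ⟨h, hh⟩ := exists_frob (L := L) Q hQ hQ0
  obtain ⟨g1, f, hf, -, hrel, habs, -⟩ := hFR1 F L Ω m hU (Q.under (𝓞 L)) h ⟨Q, hQ, rfl, hh⟩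
    (by rw [h3]; exact hPm)
  rw [h3] at hrel habs
  have hNP : 2 ≤ Ideal.absNorm P := by
    have ha : Ideal.absNorm P ≠ 0 := by
      rw [Ne, Ideal.absNorm_eq_zero_iff]
      exact hP0
    have hb : Ideal.absNorm P ≠ 1 := by
      rw [Ne, Ideal.absNorm_eq_one_iff]
      exact hP.ne_top
    omega
  have hUQ := hU Q hQ hQ0 (by rw [hQP]; exact hPm)
  refine ⟨Q.under (𝓞 L), f, h, h1, h3, hf, ?_, hrel, habs, ⟨Q, hQ, rfl, hh⟩, ?_⟩
  · refine dvd_of_frob (Q.under (𝓞 L)) h1 h2 (Ideal.absNorm P) f d hNP habs ?_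
    intro x
    have h4 := frob_pow Q (Ideal.absNorm P) (by omega) g hQg d (algebraMap (𝓞 L) (𝓞 Ω) x)
    rw [← hh', smul_restrict] at h4
    have h5 : h' • (algebraMap (𝓞 L) (𝓞 Ω) x) = algebraMap (𝓞 L) (𝓞 Ω) x := smul_algebraMap _ _
    rw [h5] at h4
    change algebraMap (𝓞 L) (𝓞 Ω) _ ∈ Q
    rw [map_sub, map_pow, ← neg_sub]
    exact Q.neg_mem h4
  · refine eq_of_sub_mem Q (Ideal.absNorm P ^ f) _ _ hUQ ?_
      (frob_pow Q _ (by omega) g hQg f)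
    intro x
    rw [smul_restrict, ← habs]
    exact hh x

end Pool.Agent.H15.RC
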