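import Pool.Agent.H15.RC.FR2
import Pool.Agent.H29.HK.PE

/-!
# The Euler factors of an induced character at the unramified primes
-/

set_option autoImplicit false
set_option linter.unusedSectionVars false

open NumberField IntermediateField
open scoped Pointwise

namespace Pool.Agent.H15.RC

open Pool.Agent.H28.RC
open Pool.Agent.H29.HK (pr mem_pr pr_max pr_card mem_pr_iff_orbit sum_orbit)

section RC2

variable {K : Type} [Field K] [NumberField K] [IsGalois ℚ K] (H : Subgroup (K ≃ₐ[ℚ] K))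

theorem exists_moved (K : Type) [Field K] [NumberField K] (g : K ≃ₐ[ℚ] K) (hg : g ≠ 1) :
    ∃ x : 𝓞 K, g • x - x ≠ 0 := by
  by_contra h
  push Not at h
  apply hg
  ext k
  have halg : IsAlgebraic ℤ k :=
    (IsFractionRing.isAlgebraic_iff ℤ ℚ K).2 (Algebra.IsAlgebraic.isAlgebraic k)
  obtain ⟨y, hy0, hy⟩ := halg.exists_integral_multiple
  have h1 := sub_eq_zero.1 (h ⟨y • k, hy⟩)
  have h2 : g (y • k) = y • k := congrArg (fun z : 𝓞 K => (z : K)) h1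
  rw [map_zsmul, zsmul_eq_mul, zsmul_eq_mul] at h2
  exact mul_left_cancel₀ (by exact_mod_cast hy0) h2

theorem natCast_mem_two (L : Type) [Field L] [NumberField L] (Q : Ideal (𝓞 L)) (hQ : Q.IsPrime)
    (p m : ℕ) (hp : (p : 𝓞 L) ∈ Q) (hm : (m : 𝓞 L) ∈ Q) : ¬ Nat.Coprime p m := by
  intro hcop
  have h1 : IsCoprime ((p : ℕ) : ℤ) ((m : ℕ) : ℤ) := Nat.isCoprime_iff_coprime.2 hcop
  obtain ⟨a, b, hab⟩ := h1
  apply hQ.ne_top
  rw [Ideal.eq_top_iff_one]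
  have h2 : (1 : 𝓞 L) = (a : 𝓞 L) * ((p : ℕ) : 𝓞 L) + (b : 𝓞 L) * ((m : ℕ) : 𝓞 L) := by
    have h3 := congrArg (fun z : ℤ => (z : 𝓞 L)) hab
    push_cast at h3
    exact h3.symm
  rw [h2]
  exact Q.add_mem (Q.mul_mem_left _ hp) (Q.mul_mem_left _ hm)

theorem exists_unram (K : Type) [Field K] [NumberField K] :
    ∃ B : Finset ℕ, ∀ p : ℕ, p.Prime → p ∉ B → ∀ Q : Ideal (𝓞 K), Q.IsPrime → (p : 𝓞 K) ∈ Q →
      ∀ g : K ≃ₐ[ℚ] K, (∀ x : 𝓞 K, g • x - x ∈ Q) → g = 1 := by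
  classical
  have hfin : Finite (K ≃ₐ[ℚ] K) := inferInstance
  let _ : Fintype (K ≃ₐ[ℚ] K) := Fintype.ofFinite _
  choose x hx using fun g : {g : K ≃ₐ[ℚ] K // g ≠ 1} => exists_moved K g.1 g.2
  set D : 𝓞 K := ∏ g : {g : K ≃ₐ[ℚ] K // g ≠ 1}, (g.1 • x g - x g) with hD
  have hD0 : D ≠ 0 := Finset.prod_ne_zero_iff.2 fun g _ => hx g
  set m : ℕ := Ideal.absNorm (Ideal.span {D}) with hm
  have hm0 : m ≠ 0 := by
    rw [hm, Ne, Ideal.absNorm_eq_zero_iff, Ideal.span_singleton_eq_bot]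
    exact hD0
  refine ⟨m.primeFactors, fun p hp hpB Q hQ hpQ g hg => ?_⟩
  by_contra hg1
  apply hpB
  rw [Nat.mem_primeFactors]
  refine ⟨hp, ?_, hm0⟩
  have hgx : g • x ⟨g, hg1⟩ - x ⟨g, hg1⟩ ∈ Q := hg _
  have hDP : D ∈ Q := by
    rw [hD, ← Finset.mul_prod_erase Finset.univ _ (Finset.mem_univ (⟨g, hg1⟩ :
      {g : K ≃ₐ[ℚ] K // g ≠ 1}))]
    exact Q.mul_mem_right _ hgx
  have hmP : ((m : ℕ) : 𝓞 K) ∈ Q := by
    have h1 := Ideal.absNorm_mem (Ideal.span {D})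
    exact (Ideal.span_singleton_le_iff_mem _).2 hDP h1
  by_contra hpm
  exact natCast_mem_two K Q hQ p m hpQ hmP ((Nat.Prime.coprime_iff_not_dvd hp).2 hpm)

/-- the number of conjugates of `P` with a given restriction -/
theorem count_fiber {p : ℕ} [hp : Fact p.Prime] {P : Ideal (𝓞 K)} (hP : P ∈ pr K p)
    (hI : ∀ Q ∈ pr K p, ∀ g : K ≃ₐ[ℚ] K, (∀ x : 𝓞 K, g • x - x ∈ Q) → g = 1)
    (q : Ideal (𝓞 (fixedField H : IntermediateField ℚ K)))
    (hq : q ∈ pr (fixedField H : IntermediateField ℚ K) p) [DecidableEq (Ideal (𝓞 K))]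
    [DecidableEq (Ideal (𝓞 (fixedField H : IntermediateField ℚ K)))] :
    ∑ y : K ≃ₐ[ℚ] K, (if (y⁻¹ • P).under (𝓞 (fixedField H : IntermediateField ℚ K)) = q
      then 1 else 0) = q.inertiaDeg ℤ * Nat.card H := by
  have hqp := (mem_pr.1 hq).1
  have hqo := (mem_pr.1 hq).2
  have hqmax := pr_max hq
  have hPmax := pr_max hP
  have := Fintype.ofFinite H
  rw [sum_orbit P (fun Q => if Q.under (𝓞 (fixedField H : IntermediateField ℚ K)) = q
    then 1 else 0) (pr K p) (mem_pr_iff_orbit hP), ← Finset.card_filter]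
  set A := 𝓞 (fixedField H : IntermediateField ℚ K) with hA
  set S := (pr K p).filter (fun Q => Q.under A = q) with hS
  have hSmem : ∀ Q ∈ S, Q.IsPrime ∧ Q.IsMaximal ∧ Q.LiesOver q ∧ Q ∈ pr K p := by
    intro Q hQ
    rw [hS, Finset.mem_filter] at hQ
    exact ⟨(mem_pr.1 hQ.1).1, pr_max hQ.1, ⟨hQ.2.symm⟩, hQ.1⟩
  have hScard : (q.primesOver (𝓞 K)).ncard = S.card := by
    rw [← Set.ncard_coe_finset]
    congr 1
    ext Q
    rw [Finset.mem_coe, hS, Finset.mem_filter, mem_pr]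
    constructor
    · rintro ⟨h1, h2⟩
      exact ⟨⟨h1, Ideal.LiesOver.trans Q q (Ideal.span {(p : ℤ)})⟩, (Ideal.over_def Q q).symm⟩
    · rintro ⟨⟨h1, h2⟩, h3⟩
      exact ⟨h1, ⟨h3.symm⟩⟩
  have hinert : ∀ Q ∈ pr K p, Nat.card (Q.inertia (K ≃ₐ[ℚ] K)) = 1 := by
    intro Q hQ
    rw [Nat.card_eq_one_iff_unique]
    refine ⟨⟨fun a b => ?_⟩, ⟨1⟩⟩
    have ha := hI Q hQ a.1 (Pool.Agent.H29.HK.mem_inert.1 a.2)
    have hb := hI Q hQ b.1 (Pool.Agent.H29.HK.mem_inert.1 b.2)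
    exact Subtype.ext (ha.trans hb.symm)
  have hinertH : ∀ Q ∈ pr K p, Nat.card (Q.inertia H) = 1 := by
    intro Q hQ
    rw [Nat.card_eq_one_iff_unique]
    refine ⟨⟨fun a b => ?_⟩, ⟨1⟩⟩
    have ha := hI Q hQ a.1 (Pool.Agent.H29.HK.mem_inert.1 a.2)
    have hb := hI Q hQ b.1 (Pool.Agent.H29.HK.mem_inert.1 b.2)
    exact Subtype.ext (Subtype.ext (ha.trans hb.symm))
  have hDcard : Nat.card (MulAction.stabilizer (K ≃ₐ[ℚ] K) P) =
      Nat.card (P.inertia (K ≃ₐ[ℚ] K)) * P.inertiaDeg ℤ := by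
    have := (mem_pr.1 hP).2
    exact Ideal.card_stabilizer_eq_card_inertia_mul_finrank (Ideal.span {(p : ℤ)}) P
  obtain ⟨Q, hQ1, hQ2⟩ : ∃ Q : Ideal (𝓞 K), Q.IsPrime ∧ Q.LiesOver q := by
    obtain ⟨⟨Q, h⟩⟩ : Nonempty (q.primesOver (𝓞 K)) := inferInstance
    exact ⟨Q, h.1, h.2⟩
  have hQ4 : Q ∈ pr K p := mem_pr.2 ⟨hQ1, Ideal.LiesOver.trans Q q (Ideal.span {(p : ℤ)})⟩
  have hQmax := pr_max hQ4
  have hg := Ideal.ncard_primesOver_mul_card_inertia_mul_finrank (G := H) q Q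
  rw [hScard, hinertH Q hQ4, mul_one] at hg
  obtain ⟨g, hgP⟩ := (mem_pr_iff_orbit hP Q).1 hQ4
  have hf : P.inertiaDeg ℤ = q.inertiaDeg ℤ * Q.inertiaDeg A := by
    rw [← Ideal.inertiaDeg_tower q Q, ← hgP, Ideal.inertiaDeg_smul]
  rw [hDcard, hinert P hP, one_mul, hf, ← hg]
  ring

/-- the terms of the induced character -/
noncomputable def tm {G : Type} [Group G] (H : Subgroup G) (lam : H →* ℂˣ) (g y : G)
    [Decidable (y⁻¹ * g * y ∈ H)] : ℂ :=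
  if h : y⁻¹ * g * y ∈ H then ((lam ⟨_, h⟩ : ℂˣ) : ℂ) else 0

theorem tm_mul {G : Type} [Group G] (H : Subgroup G) (lam : H →* ℂˣ) (g y : G) (h : H)
    [Decidable (y⁻¹ * g * y ∈ H)] [Decidable ((y * h)⁻¹ * g * (y * h) ∈ H)] :
    tm H lam g (y * h) = tm H lam g y := by
  have e : (y * (h : G))⁻¹ * g * (y * h) = (h : G)⁻¹ * (y⁻¹ * g * y) * h := by group
  unfold tm
  by_cases h1 : y⁻¹ * g * y ∈ H
  · have h2 : (y * (h : G))⁻¹ * g * (y * h) ∈ H := by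
      rw [e]
      exact H.mul_mem (H.mul_mem (H.inv_mem h.2) h1) h.2
    rw [dif_pos h1, dif_pos h2]
    have h3 : (⟨_, h2⟩ : H) = h⁻¹ * ⟨_, h1⟩ * h := Subtype.ext e
    rw [h3, map_mul, map_mul, map_inv, mul_comm, mul_inv_cancel_left]
  · have h2 : ¬ (y * (h : G))⁻¹ * g * (y * h) ∈ H := by
      intro h2
      apply h1
      rw [e] at h2
      have h3 := H.mul_mem (H.mul_mem h.2 h2) (H.inv_mem h.2)
      have e2 : (h : G) * ((h : G)⁻¹ * (y⁻¹ * g * y) * h) * (h : G)⁻¹ = y⁻¹ * g * y := by group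
      rwa [e2] at h3
    rw [dif_neg h1, dif_neg h2]

open scoped Classical in
theorem indc_sum {G : Type} [Group G] [Fintype G] (H : Subgroup G) (lam : H →* ℂˣ) (g : G) :
    (Nat.card H : ℂ) * indc H lam g = ∑ y : G, tm H lam g y := by
  have := Fintype.ofFinite H
  have := Fintype.ofFinite (G ⧸ H)
  have hb : Function.Bijective (fun z : (G ⧸ H) × H => z.1.out * (z.2 : G)) := by
    constructor
    · rintro ⟨x, h⟩ ⟨x', h'⟩ he
      simp only at he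
      have h1 : x = x' := by
        have h2 := congrArg (QuotientGroup.mk (s := H)) he
        rw [QuotientGroup.mk_mul_of_mem _ h.2, QuotientGroup.mk_mul_of_mem _ h'.2,
          QuotientGroup.out_eq', QuotientGroup.out_eq'] at h2
        exact h2
      subst h1
      rw [mul_right_inj] at he
      rw [Subtype.ext he]
    · intro y
      refine ⟨⟨QuotientGroup.mk y, ⟨(QuotientGroup.mk (s := H) y).out⁻¹ * y, ?_⟩⟩, ?_⟩
      · rw [← QuotientGroup.eq, QuotientGroup.out_eq']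
      · simp
  have h1 := Fintype.sum_bijective _ hb
    (fun z : (G ⧸ H) × H => tm H lam g (z.1.out * (z.2 : G))) (fun y => tm H lam g y)
    (fun _ => rfl)
  rw [← h1, Fintype.sum_prod_type]
  unfold indc
  rw [finsum_eq_sum_of_fintype, Finset.mul_sum]
  refine Finset.sum_congr rfl fun x _ => ?_
  have h2 : ∀ h : H, tm H lam g (x.out * (h : G)) = tm H lam g x.out := fun h =>
    tm_mul H lam g x.out h
  simp only [h2]
  rw [Finset.sum_const, Finset.card_univ, nsmul_eq_mul, Nat.card_eq_fintype_card]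
  rfl

theorem mem_of_fixes (g : K ≃ₐ[ℚ] K) (hg : ∀ x ∈ (fixedField H : IntermediateField ℚ K), g x = x) :
    g ∈ H := by
  rw [← IntermediateField.fixingSubgroup_fixedField H, IntermediateField.mem_fixingSubgroup_iff]
  exact hg

theorem fixes_of_mem (g : K ≃ₐ[ℚ] K) (hg : g ∈ H)
    (x : 𝓞 (fixedField H : IntermediateField ℚ K)) :
    g • (algebraMap (𝓞 (fixedField H : IntermediateField ℚ K)) (𝓞 K) x) =
      algebraMap (𝓞 (fixedField H : IntermediateField ℚ K)) (𝓞 K) x := by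
  rw [← IntermediateField.fixingSubgroup_fixedField H,
    IntermediateField.mem_fixingSubgroup_iff] at hg
  apply RingOfIntegers.ext
  exact hg _ (x : (fixedField H : IntermediateField ℚ K)).2

open scoped Classical in
theorem tm_eq (lam : H →* ℂˣ) (χ : RCC (fixedField H : IntermediateField ℚ K)) (p : ℕ)
    [hp : Fact p.Prime] (Q : Ideal (𝓞 K)) (hQ : Q ∈ pr K p) (φ : K ≃ₐ[ℚ] K)
    (hφ : ∀ x : 𝓞 K, φ • x - x ^ p ∈ Q)
    (hI : ∀ Q ∈ pr K p, ∀ g : K ≃ₐ[ℚ] K, (∀ x : 𝓞 K, g • x - x ∈ Q) → g = 1)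
    (hχ : ∀ q ∈ pr (fixedField H : IntermediateField ℚ K) p,
      ∀ (h : K ≃ₐ[(fixedField H : IntermediateField ℚ K)] K) (hm : h.restrictScalars ℚ ∈ H),
        Fro q h → χ.ψ q = ((lam ⟨h.restrictScalars ℚ, hm⟩ : ℂˣ) : ℂ)) (k : ℕ)
    (y : K ≃ₐ[ℚ] K) (q : Ideal (𝓞 (fixedField H : IntermediateField ℚ K)))
    (hq : (y⁻¹ • Q).under (𝓞 (fixedField H : IntermediateField ℚ K)) = q) :
    tm H lam (φ ^ k) y = if q.inertiaDeg ℤ ∣ k then χ.ψ q ^ (k / q.inertiaDeg ℤ) else 0 := by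
  have hQy : y⁻¹ • Q ∈ pr K p := (mem_pr_iff_orbit hQ _).2 ⟨y⁻¹, rfl⟩
  set R := y⁻¹ • Q with hR
  have hRp := (mem_pr.1 hQy).1
  have hRo := (mem_pr.1 hQy).2
  have hRmax := pr_max hQy
  have hR0 : R ≠ ⊥ := by
    intro h
    have h1 : Ideal.span {(p : ℤ)} = ⊥ := by
      rw [Ideal.over_def R (Ideal.span {(p : ℤ)}), h]
      exact Ideal.under_bot _ _
    rw [Ideal.span_singleton_eq_bot] at h1
    exact hp.out.ne_zero (by exact_mod_cast h1)
  have hqpr : q ∈ pr (fixedField H : IntermediateField ℚ K) p := by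
    rw [← hq, mem_pr]
    refine ⟨inferInstance, ?_⟩
    exact Ideal.LiesOver.tower_bot R (R.under _) (Ideal.span {(p : ℤ)})
  have hqmax := pr_max hqpr
  have hqabs : Ideal.absNorm q = p ^ q.inertiaDeg ℤ := by
    rw [Ideal.absNorm_apply, Submodule.cardQuot_apply, pr_card hqpr]
  have hq0 : q ≠ ⊥ := by
    rintro h
    rw [h, Ideal.absNorm_bot] at hqabs
    exact (pow_ne_zero _ hp.out.ne_zero) hqabs.symm
  have hf0 : q.inertiaDeg ℤ ≠ 0 := by
    intro h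
    rw [h, pow_zero, Ideal.absNorm_eq_one_iff] at hqabs
    exact hqmax.ne_top hqabs
  obtain ⟨h, hh⟩ := exists_frob (L := (fixedField H : IntermediateField ℚ K)) R hRp hR0
  rw [hq, hqabs] at hh
  set ψ := y⁻¹ * φ * y with hψ
  have hψR : ∀ x : 𝓞 K, ψ • x - x ^ p ∈ R := by
    intro x
    have h1 : ψ • x - x ^ p = y⁻¹ • (φ • (y • x) - (y • x) ^ p) := by
      rw [smul_sub, smul_pow', inv_smul_smul, hψ, mul_smul, mul_smul]
    rw [h1]
    exact Ideal.smul_mem_pointwise_smul _ _ _ (hφ _)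
  have hψk : ∀ j : ℕ, y⁻¹ * φ ^ j * y = ψ ^ j := by
    intro j
    have h1 := conj_pow (i := j) (a := y⁻¹) (b := φ)
    rw [inv_inv] at h1
    rw [hψ, h1]
  have hres : h.restrictScalars ℚ = ψ ^ q.inertiaDeg ℤ := by
    refine eq_of_sub_mem R (p ^ q.inertiaDeg ℤ) _ _ (hI R hQy) ?_
      (frob_pow R p hp.out.ne_zero ψ hψR _)
    intro x
    rw [smul_restrict]
    exact hh x
  have hm : h.restrictScalars ℚ ∈ H := by
    apply mem_of_fixes
    intro x hx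
    exact h.commutes ⟨x, hx⟩
  have hχq := hχ q hqpr h hm ⟨R, hRp, hq, by rw [hqabs]; exact hh⟩
  unfold tm
  by_cases hk : q.inertiaDeg ℤ ∣ k
  · rw [if_pos hk]
    obtain ⟨j, rfl⟩ := hk
    have h1 : y⁻¹ * φ ^ (q.inertiaDeg ℤ * j) * y = (h.restrictScalars ℚ) ^ j := by
      rw [hψk, hres, ← pow_mul]
    have h2 : y⁻¹ * φ ^ (q.inertiaDeg ℤ * j) * y ∈ H := by
      rw [h1]
      exact H.pow_mem hm j
    rw [dif_pos h2, Nat.mul_div_cancel_left _ (Nat.pos_of_ne_zero hf0), hχq]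
    have h3 : (⟨_, h2⟩ : H) = ⟨h.restrictScalars ℚ, hm⟩ ^ j := Subtype.ext h1
    rw [h3, map_pow, Units.val_pow_eq_pow_val]
  · rw [if_neg hk, dif_neg]
    intro h2
    apply hk
    refine dvd_of_frob q hqmax.isPrime hq0 p _ k hp.out.two_le hqabs fun x => ?_
    rw [hψk] at h2
    have h4 := frob_pow R p hp.out.ne_zero ψ hψR k
      (algebraMap (𝓞 (fixedField H : IntermediateField ℚ K)) (𝓞 K) x)
    rw [fixes_of_mem H _ h2] at h4
    rw [← hq]
    change algebraMap (𝓞 (fixedField H : IntermediateField ℚ K)) (𝓞 K) _ ∈ R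
    rw [map_sub, map_pow, ← neg_sub]
    exact R.neg_mem h4

end RC2

theorem mem_pr_of_mem {L : Type} [Field L] [NumberField L] {p : ℕ} [hp : Fact p.Prime]
    {Q : Ideal (𝓞 L)} (hQ : Q.IsPrime) (hpQ : (p : 𝓞 L) ∈ Q) : Q ∈ pr L p := by
  rw [mem_pr]
  refine ⟨hQ, ⟨?_⟩⟩
  have hmax : (Ideal.span {((p : ℕ) : ℤ)}).IsMaximal := inferInstance
  apply hmax.eq_of_le
  · exact (Ideal.IsPrime.under ℤ Q).ne_top
  · rw [Ideal.span_singleton_le_iff_mem, Ideal.mem_comap]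
    simpa using hpQ

theorem mem_of_mem_pr {L : Type} [Field L] [NumberField L] {p : ℕ} [hp : Fact p.Prime]
    {Q : Ideal (𝓞 L)} (hQ : Q ∈ pr L p) : (p : 𝓞 L) ∈ Q := by
  have h := (mem_pr.1 hQ).2
  have h1 : (p : ℤ) ∈ Q.under ℤ := by
    rw [← Ideal.over_def Q (Ideal.span {(p : ℤ)})]
    exact Ideal.mem_span_singleton_self _
  rw [Ideal.mem_comap] at h1
  simpa using h1

theorem pf_RC2 : T_FRE → T_FR1 → T_FR2 → T_RC2 := by
  intro _ _ _ K _ _ _ H lam χ B hB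
  classical
  obtain ⟨B1, hB1⟩ := exists_unram K
  refine ⟨B ∪ B1, fun p hp hpB Q hQ hpQ φ hφ k _ => ?_⟩
  rw [Finset.mem_union, not_or] at hpB
  have hpf : Fact p.Prime := ⟨hp⟩
  have hQpr : Q ∈ pr K p := mem_pr_of_mem hQ hpQ
  have hI : ∀ Q ∈ pr K p, ∀ g : K ≃ₐ[ℚ] K, (∀ x : 𝓞 K, g • x - x ∈ Q) → g = 1 :=
    fun Q' hQ' g hg => hB1 p hp hpB.2 Q' (mem_pr.1 hQ').1 (mem_of_mem_pr hQ') g hg
  have hχ : ∀ q ∈ pr (fixedField H : IntermediateField ℚ K) p,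
      ∀ (h : K ≃ₐ[(fixedField H : IntermediateField ℚ K)] K) (hm : h.restrictScalars ℚ ∈ H),
        Fro q h → χ.ψ q = ((lam ⟨h.restrictScalars ℚ, hm⟩ : ℂˣ) : ℂ) := by
    intro q hq h hm hfr
    have hqp := (mem_pr.1 hq).1
    have hpq := mem_of_mem_pr hq
    refine hB q hqp ?_ ?_ h hm hfr
    · rintro rfl
      rw [Ideal.mem_bot] at hpq
      exact hp.ne_zero (by exact_mod_cast hpq)
    · intro p' hp' hp'B hp'q
      have hne : p ≠ p' := by
        rintro rfl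
        exact hpB.1 hp'B
      exact natCast_mem_two _ q hqp p p' hpq hp'q ((Nat.coprime_primes hp hp').2 hne)
  have hH0 : (Nat.card H : ℂ) ≠ 0 := Nat.cast_ne_zero.2 Nat.card_pos.ne'
  apply mul_left_cancel₀ hH0
  rw [indc_sum]
  set V : Ideal (𝓞 (fixedField H : IntermediateField ℚ K)) → ℂ := fun q =>
    if q.inertiaDeg ℤ ∣ k then χ.ψ q ^ (k / q.inertiaDeg ℤ) else 0 with hV
  have h1 : ∀ y : K ≃ₐ[ℚ] K, tm H lam (φ ^ k) y =
      V ((y⁻¹ • Q).under (𝓞 (fixedField H : IntermediateField ℚ K))) := fun y =>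
    tm_eq H lam χ p Q hQpr φ hφ hI hχ k y _ rfl
  have hmaps : ∀ y ∈ (Finset.univ : Finset (K ≃ₐ[ℚ] K)),
      (y⁻¹ • Q).under (𝓞 (fixedField H : IntermediateField ℚ K)) ∈
        pr (fixedField H : IntermediateField ℚ K) p := by
    intro y _
    have hQy : y⁻¹ • Q ∈ pr K p := (mem_pr_iff_orbit hQpr _).2 ⟨y⁻¹, rfl⟩
    have := (mem_pr.1 hQy).1
    have := (mem_pr.1 hQy).2
    rw [mem_pr]
    exact ⟨inferInstance, Ideal.LiesOver.tower_bot (y⁻¹ • Q) ((y⁻¹ • Q).under _)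
      (Ideal.span {(p : ℤ)})⟩
  have h2 : ∑ y : K ≃ₐ[ℚ] K, tm H lam (φ ^ k) y =
      ∑ q ∈ pr (fixedField H : IntermediateField ℚ K) p,
        ((q.inertiaDeg ℤ * Nat.card H : ℕ) : ℂ) * V q := by
    rw [← Finset.sum_fiberwise_of_maps_to hmaps]
    refine Finset.sum_congr rfl fun q hq => ?_
    have h3 := count_fiber H hQpr hI q hq
    rw [← h3, ← Finset.card_filter, ← nsmul_eq_mul, ← Finset.sum_const]
    refine Finset.sum_congr rfl fun y hy => ?_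
    rw [h1, (Finset.mem_filter.1 hy).2]
  rw [h2]
  unfold spc
  rw [finsum_mem_eq_finite_toFinset_sum _
    (IsDedekindDomain.primesOver_finite (Ideal.span {(p : ℤ)})
      (𝓞 (fixedField H : IntermediateField ℚ K))), Finset.mul_sum]
  refine Finset.sum_congr rfl fun q _ => ?_
  rw [hV, Nat.cast_mul]
  simp only
  split_ifs
  · ring
  · ring

end Pool.Agent.H15.RC
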