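import Pool.Agent.H28.RC.Targets3

/-!
# Primes in a tower of number fields
-/

set_option autoImplicit false

open NumberField

namespace Pool.Agent.H15.RC

open Pool.Agent.H28.RC

theorem smul_restrict {F L Ω : Type} [Field F] [NumberField F] [Field L] [NumberField L]
    [Field Ω] [NumberField Ω] [Algebra F L] [Algebra L Ω] [Algebra F Ω] [IsScalarTower F L Ω]
    (h : Ω ≃ₐ[L] Ω) (x : 𝓞 Ω) : (h.restrictScalars F) • x = h • x := rfl

theorem under_prime {F L : Type} [Field F] [NumberField F] [Field L] [NumberField L]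
    [Algebra F L] (P : Ideal (𝓞 L)) (hP : P.IsPrime) (h0 : P ≠ ⊥) :
    (P.under (𝓞 F)).IsPrime ∧ P.under (𝓞 F) ≠ ⊥ := by
  refine ⟨Ideal.IsPrime.under _ P, ?_⟩
  exact Ideal.IsIntegral.comap_ne_bot _ h0

theorem under_coprime {F L : Type} [Field F] [NumberField F] [Field L] [NumberField L]
    [Algebra F L] (P : Ideal (𝓞 L)) (hP : P.IsPrime) (h0 : P ≠ ⊥) (m : Ideal (𝓞 F)) :
    (P ⊔ m.map (algebraMap (𝓞 F) (𝓞 L)) = ⊤ ↔ P.under (𝓞 F) ⊔ m = ⊤) := by
  obtain ⟨h1, h2⟩ := under_prime (F := F) P hP h0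
  have hPm : P.IsMaximal := hP.isMaximal h0
  have hpm : (P.under (𝓞 F)).IsMaximal := h1.isMaximal h2
  constructor
  · intro h
    by_contra hc
    have hle : m ≤ P.under (𝓞 F) := by
      have h3 := (hpm.eq_of_le hc le_sup_left)
      rw [h3]
      exact le_sup_right
    have h4 : m.map (algebraMap (𝓞 F) (𝓞 L)) ≤ P := Ideal.map_le_iff_le_comap.2 hle
    rw [sup_eq_left.2 h4] at h
    exact hP.ne_top h
  · intro h
    by_contra hc
    have hle : m.map (algebraMap (𝓞 F) (𝓞 L)) ≤ P := by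
      have h3 := (hPm.eq_of_le hc le_sup_left)
      rw [h3]
      exact le_sup_right
    have h4 : m ≤ P.under (𝓞 F) := Ideal.map_le_iff_le_comap.1 hle
    rw [sup_eq_left.2 h4] at h
    exact h1.ne_top h

theorem pf_URT : T_URT := by
  intro F L Ω _ _ _ _ _ _ _ _ _ _ m
  refine ⟨fun P hP h0 => ⟨(under_prime P hP h0).1, (under_prime P hP h0).2,
    under_coprime P hP h0 m⟩, ?_⟩
  intro hU Q hQ hQ0 hQm g hg
  obtain ⟨h1, h2⟩ := under_prime (F := L) Q hQ hQ0
  have h3 := (under_coprime (F := F) (Q.under (𝓞 L)) h1 h2 m).1 hQm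
  rw [Ideal.under_under] at h3
  have h4 := hU Q hQ hQ0 h3 (g.restrictScalars F) (fun x => by
    rw [smul_restrict]; exact hg x)
  ext x
  exact DFunLike.congr_fun h4 x

end Pool.Agent.H15.RC
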